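import Mathlib

set_option autoImplicit false
open Finset Filter Topology Function

namespace Pool.Agent.Results.MP_d4e795_co.Limit

/-- `E` is a family of `d`-subsets that blocks every `d`-partition, a partition being given by a
surjective map `c` onto the `d` part labels. -/
def Blocking {V : Type} (d : ℕ) (E : Finset (Finset V)) : Prop :=
  (∀ e ∈ E, #e = d) ∧ ∀ c : V → Fin d, Surjective c → ∃ e ∈ E, ∀ i, ∃ x ∈ e, c x = i

/-- The minimum size of a `d`-blocking set on `n` points. -/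
noncomputable def phi (d n : ℕ) : ℕ := sInf {m | ∃ E : Finset (Finset (Fin n)), Blocking d E ∧ #E = m}

theorem ex (d n : ℕ) : ∃ E : Finset (Finset (Fin n)), Blocking d E ∧ #E = phi d n := by
  refine Nat.sInf_mem (s := {m | ∃ E : Finset (Finset (Fin n)), Blocking d E ∧ #E = m})
    ⟨_, univ.powersetCard d, ⟨fun e he => (mem_powersetCard.mp he).2, fun c hc => ?_⟩, rfl⟩
  refine ⟨univ.image (surjInv hc), mem_powersetCard.mpr ⟨subset_univ _, ?_⟩,
    fun i => ⟨_, mem_image_of_mem _ (mem_univ i), surjInv_eq hc i⟩⟩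
  rw [card_image_of_injective _ (injective_surjInv hc)]; simp

theorem transfer {V : Type} [Fintype V] {d : ℕ} {E : Finset (Finset V)} (h : Blocking d E) :
    phi d (Fintype.card V) ≤ #E := by
  classical
  let f := Fintype.equivFin V
  refine le_trans (Nat.sInf_le ⟨E.image (·.map f.toEmbedding), ⟨fun e he => ?_, fun c hc => ?_⟩, rfl⟩)
    card_image_le
  · obtain ⟨e, he', rfl⟩ := mem_image.mp he
    rw [card_map, h.1 e he']
  · obtain ⟨e, he, a⟩ := h.2 (c ∘ f) (hc.comp f.surjective)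
    exact ⟨_, mem_image_of_mem _ he, fun i => (a i).elim fun x b => ⟨f x, mem_map_of_mem _ b.1, b.2⟩⟩

theorem blow (k m N r : ℕ) [NeZero m] [NeZero N] : phi (k + 3) (m * N + r) ≤
    phi (k + 3) m * N ^ (k + 2) + ((N + r) * (m * N + r) ^ (k + 1) + m * N * N * (m * N + r) ^ k) := by
  classical
  obtain ⟨E, ⟨h1, h2⟩, h3⟩ := ex (k + 3) m
  let V := (Fin m × ZMod N) ⊕ Fin r
  have cV : Fintype.card V = m * N + r := by simp [V]
  let h : V := .inl (0, 0)
  let A : Finset (Fin m) → Finset (Fin m → ZMod N) := fun e =>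
    univ.filter fun a => (∀ x ∉ e, a x = 0) ∧ ∑ x ∈ e, a x = 0
  let E1 : Finset (Finset V) := E.biUnion fun e => (A e).image fun a => e.image fun x => .inl (x, a x)
  let Z : Finset V := (univ.image fun a : ZMod N => .inl (0, a)) ∪ univ.image .inr
  let E2 : Finset (Finset V) := (Z ×ˢ univ.powersetCard (k + 1)).image fun z => insert h (insert z.1 z.2)
  let E3 : Finset (Finset V) := ((univ : Finset (Fin m × ZMod N × ZMod N)) ×ˢ univ.powersetCard k).image
    fun z => insert h (insert (.inl (z.1.1, z.1.2.1)) (insert (.inl (z.1.1, z.1.2.2)) z.2))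
  have c1 : #E1 ≤ #E * N ^ (k + 2) := by
    refine card_biUnion_le_card_mul _ _ _ fun e he => card_image_le.trans ?_
    obtain ⟨y, hy⟩ := card_pos.mp (show 0 < #e by rw [h1 e he]; omega)
    refine (card_le_card_of_injOn (t := univ) (fun a (x : e.erase y) => a x) (by simp) ?_).trans ?_
    · intro a ha b hb q
      obtain ⟨a1, a2⟩ := (mem_filter.mp (mem_coe.mp ha)).2
      obtain ⟨b1, b2⟩ := (mem_filter.mp (mem_coe.mp hb)).2
      have q : ∀ x ∈ e.erase y, a x = b x := fun x hx => congrFun q ⟨x, hx⟩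
      funext x
      by_cases c : x ∈ e
      · by_cases d : x = y
        · rw [← add_sum_erase _ _ hy] at a2 b2
          rw [sum_congr rfl q, ← b2] at a2
          rw [d]; exact add_right_cancel a2
        · exact q x (mem_erase.mpr ⟨d, c⟩)
      · rw [a1 x c, b1 x c]
    · rw [card_univ, Fintype.card_fun, Fintype.card_coe, card_erase_of_mem hy, h1 e he, ZMod.card]; rfl
  have c2 : #E2 ≤ (N + r) * (m * N + r) ^ (k + 1) := by
    refine card_image_le.trans ?_
    rw [card_product, card_powersetCard, card_univ, cV]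
    exact Nat.mul_le_mul ((card_union_le _ _).trans (add_le_add (card_image_le.trans (by simp))
      (card_image_le.trans (by simp)))) (Nat.choose_le_pow _ _)
  have c3 : #E3 ≤ m * N * N * (m * N + r) ^ k := by
    refine card_image_le.trans ?_
    rw [card_product, card_powersetCard, card_univ, card_univ, cV]
    exact Nat.mul_le_mul (by simp [mul_assoc]) (Nat.choose_le_pow _ _)
  rw [← cV, ← h3]
  refine (transfer (E := (E1 ∪ (E2 ∪ E3)).filter fun e => #e = k + 3)
    ⟨fun e he => (mem_filter.mp he).2, fun c hc => ?_⟩).trans ((card_filter_le _ _).trans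
      ((card_union_le _ _).trans (add_le_add c1 ((card_union_le _ _).trans (cV ▸ add_le_add c2 c3)))))
  suffices ∃ e ∈ E1 ∪ (E2 ∪ E3), #e ≤ k + 3 ∧ ∀ i, ∃ x ∈ e, c x = i by
    obtain ⟨e, a, b, d⟩ := this
    refine ⟨e, mem_filter.mpr ⟨a, b.antisymm ?_⟩, d⟩
    simpa using card_le_card_of_surjOn (s := e) (t := univ) c fun i _ => d i
  have cT : ∀ S : Finset (Fin (k + 3)), #(Sᶜ.image (surjInv hc)) = k + 3 - #S := fun S => by
    rw [card_image_of_injective _ (injective_surjInv hc), card_compl, Fintype.card_fin]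
  have mT : ∀ (S : Finset (Fin (k + 3))) i, i ∉ S → ∃ x ∈ Sᶜ.image (surjInv hc), c x = i :=
    fun S i hi => ⟨_, mem_image_of_mem _ (mem_compl.mpr hi), surjInv_eq hc i⟩
  by_cases z : ∃ z ∈ Z, c z ≠ c h
  · obtain ⟨z, z1, z2⟩ := z
    have := cT {c z, c h}
    rw [card_pair z2] at this
    refine ⟨_, mem_union_right _ (mem_union_left _ (mem_image_of_mem _ (a := (z, _))
      (mem_product.mpr ⟨z1, mem_powersetCard.mpr ⟨subset_univ _, this⟩⟩))), ?_, fun i => ?_⟩
    · exact (card_insert_le _ _).trans (Nat.succ_le_succ ((card_insert_le _ _).trans (Nat.succ_le_succ this.le)))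
    · by_cases a : i = c z
      · exact ⟨z, mem_insert_of_mem (mem_insert_self _ _), a.symm⟩
      by_cases b : i = c h
      · exact ⟨h, mem_insert_self _ _, b.symm⟩
      exact (mT {c z, c h} i (by simp [a, b])).imp fun x t => ⟨mem_insert_of_mem (mem_insert_of_mem t.1), t.2⟩
  push Not at z
  by_cases p : ∃ x a b, c (.inl (x, a)) ≠ c (.inl (x, b)) ∧ c (.inl (x, a)) ≠ c h ∧ c (.inl (x, b)) ≠ c h
  · obtain ⟨x, a, b, p1, p2, p3⟩ := p
    have := cT {c (.inl (x, a)), c (.inl (x, b)), c h}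
    rw [card_insert_of_notMem (by simp [p1, p2]), card_pair p3] at this
    refine ⟨_, mem_union_right _ (mem_union_right _ (mem_image_of_mem _ (a := ((x, a, b), _))
      (mem_product.mpr ⟨mem_univ _, mem_powersetCard.mpr ⟨subset_univ _, this⟩⟩))), ?_, fun i => ?_⟩
    · exact (card_insert_le _ _).trans (Nat.succ_le_succ ((card_insert_le _ _).trans
        (Nat.succ_le_succ ((card_insert_le _ _).trans (Nat.succ_le_succ this.le)))))
    · by_cases u : i = c (.inl (x, a))
      · exact ⟨_, mem_insert_of_mem (mem_insert_self _ _), u.symm⟩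
      by_cases v : i = c (.inl (x, b))
      · exact ⟨_, mem_insert_of_mem (mem_insert_of_mem (mem_insert_self _ _)), v.symm⟩
      by_cases w : i = c h
      · exact ⟨h, mem_insert_self _ _, w.symm⟩
      exact (mT {c (.inl (x, a)), c (.inl (x, b)), c h} i (by simp [u, v, w])).imp fun x t =>
        ⟨mem_insert_of_mem (mem_insert_of_mem (mem_insert_of_mem t.1)), t.2⟩
  push Not at p
  have : ∀ x, ∃ a, c (.inl (x, a)) = c h → ∀ b, c (.inl (x, b)) = c h := fun x => by
    by_cases q : ∀ b, c (.inl (x, b)) = c h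
    · exact ⟨0, fun _ => q⟩
    · push Not at q
      exact q.imp fun a ha e => absurd e ha
  choose g hg using this
  obtain ⟨e, he, a⟩ := h2 (fun x => c (.inl (x, g x))) (by
    intro i
    by_cases q : i = c h
    · exact ⟨0, q ▸ z _ (mem_union_left _ (mem_image_of_mem _ (mem_univ _)))⟩
    obtain ⟨⟨x, b⟩ | x, rfl⟩ := hc i
    · refine ⟨x, by_contra fun n => q (hg x (by_contra fun o => q (p x _ _ n o)) b)⟩
    · exact absurd (z _ (mem_union_right _ (mem_image_of_mem _ (mem_univ _)))) q)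
  obtain ⟨y, y1, y2⟩ := a (c h)
  let f : Fin m → ZMod N := fun x => if x ∈ e.erase y then g x else
    if x = y then -∑ x ∈ e.erase y, g x else 0
  refine ⟨_, mem_union_left _ (mem_biUnion.mpr ⟨e, he, mem_image_of_mem _ (a := f)
    (mem_filter.mpr ⟨mem_univ _, fun x hx => ?_, ?_⟩)⟩), card_image_le.trans (h1 e he).le, fun i => ?_⟩
  · exact (if_neg fun m => hx (mem_of_mem_erase m)).trans (if_neg (by rintro rfl; exact hx y1))
  · rw [← add_sum_erase _ _ y1, sum_congr rfl fun x hx => (if_pos hx : f x = g x)]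
    simp [f]
  · obtain ⟨x, x1, rfl⟩ := a i
    refine ⟨_, mem_image_of_mem _ x1, ?_⟩
    by_cases q : x = y
    · rw [q, y2, hg y y2]
    · rw [show f x = g x from if_pos (mem_erase.mpr ⟨q, x1⟩)]

theorem ineq (k m n : ℕ) (hm : 0 < m) (h : m ≤ n) : (phi (k + 3) n : ℝ) / n ^ (k + 2) ≤
    (phi (k + 3) m : ℝ) / m ^ (k + 2) + 2 / m + m / n := by
  haveI : NeZero m := ⟨hm.ne'⟩
  haveI : NeZero (n / m) := ⟨(Nat.div_pos h hm).ne'⟩
  have b := blow k m (n / m) (n % m)
  rw [Nat.div_add_mod] at b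
  have b : (phi (k + 3) n : ℝ) ≤ phi (k + 3) m * (n / m : ℕ) ^ (k + 2) +
    (((n / m : ℕ) + (n % m : ℕ)) * n ^ (k + 1) + m * (n / m : ℕ) * (n / m : ℕ) * n ^ k) := by
    exact_mod_cast b
  have m0 : (0 : ℝ) < m := by exact_mod_cast hm
  have n0 : (0 : ℝ) < n := by exact_mod_cast hm.trans_le h
  have q : ((n / m : ℕ) : ℝ) ≤ n / m := Nat.cast_div_le
  have r : ((n % m : ℕ) : ℝ) ≤ m := by exact_mod_cast (Nat.mod_lt n hm).le
  rw [div_le_iff₀ (by positivity)]
  refine b.trans (le_of_le_of_eq (b := phi (k + 3) m * (n / m : ℝ) ^ (k + 2) +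
    ((n / m + m) * n ^ (k + 1) + m * (n / m) * (n / m) * n ^ k)) (by gcongr) ?_)
  rw [div_pow]; field_simp; ring

theorem result (d : ℕ) (hd : 4 ≤ d) :
    ∃ c : ℝ, Tendsto (fun n : ℕ => (phi d n : ℝ) / n ^ (d - 1)) atTop (𝓝 c) := by
  obtain ⟨k, rfl⟩ : ∃ k, d = k + 3 := ⟨d - 3, by omega⟩
  let a : ℕ → ℝ := fun n => (phi (k + 3) n : ℝ) / n ^ (k + 2)
  have bd : BddBelow (Set.range fun m : ℕ => a (m + 1) + 2 / (m + 1 : ℕ)) :=
    ⟨0, by rintro _ ⟨m, rfl⟩; simp only [a]; positivity⟩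
  have z : ∀ c : ℝ, Tendsto (fun n : ℕ => c / n) atTop (𝓝 0) := tendsto_const_div_atTop_nhds_zero_nat
  refine ⟨⨅ m : ℕ, a (m + 1) + 2 / (m + 1 : ℕ), tendsto_order.mpr ⟨fun x hx => ?_, fun x hx => ?_⟩⟩
  · filter_upwards [(z 2).eventually (gt_mem_nhds (sub_pos.mpr hx)), eventually_gt_atTop 0] with n h1 h2
    have := ciInf_le bd (n - 1)
    rw [Nat.sub_add_cancel h2] at this
    show x < a n
    linarith
  · obtain ⟨m, hm⟩ := exists_lt_of_ciInf_lt hx
    filter_upwards [(z (m + 1 : ℕ)).eventually (gt_mem_nhds (sub_pos.mpr hm)),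
      eventually_ge_atTop (m + 1)] with n h1 h2
    have := ineq k (m + 1) n m.succ_pos h2
    show a n < x
    simp only [a] at *
    linarith

end Pool.Agent.Results.MP_d4e795_co.Limit
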